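import Pool.Agent.L0h60.HT.Base
import Pool.Agent.L0h89.HT.Pred2
import Pool.Agent.N892.MA.Pk

set_option autoImplicit false

/-! ZAFF: affine copies. -/

namespace Pool.Agent.L0h60.HT

open MeasureTheory Filter Topology Metric
open scoped ENNReal NNReal
open Pool.Agent.L0h89.HT H984N
open Pool.Agent.N892.UP (packDim)

theorem packDim_tau {L : ℝ} (hL : 1 ≤ L) (A : Set unitInterval) :
    packDim A ≤ packDim (tau L '' A) := by
  classical
  have hinj : Function.Injective (tau L) := (tau_anti hL).injective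
  have hlip : LipschitzOnWith (Real.toNNReal L) (Function.invFun (tau L)) (tau L '' A) := by
    apply LipschitzOnWith.of_dist_le_mul
    rintro _ ⟨s, _, rfl⟩ _ ⟨t, _, rfl⟩
    rw [Function.leftInverse_invFun hinj, Function.leftInverse_invFun hinj]
    exact (tau_anti hL).le_mul_dist s t
  have h1 := Pool.Agent.N892.MA.packDim_image hlip
  have h2 : Function.invFun (tau L) '' (tau L '' A) = A := by
    rw [Set.image_image]
    simp_rw [Function.leftInverse_invFun hinj _]
    exact Set.image_id' A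
  rw [h2] at h1
  exact h1

theorem packDim_rf (A : Set ℂ) : packDim (rf '' A) ≤ packDim A :=
  Pool.Agent.N892.MA.packDim_image (C := 1) (rf_iso.lipschitz.lipschitzOnWith)

theorem t_Aff : T_Aff := by
  refine ⟨?_, ?_, ?_⟩
  · intro f p ρ hρ a S h hf hS
    have hL := rev_pos h
    have hD : ∀ s : unitInterval, f s ∈ S ∩ Hp → p.1 (tau p.2 s) ∈ rf ⁻¹' S ∩ (Sq ρ hρ).D := by
      rintro s ⟨h1, h2⟩
      have h3 : p.1 (tau p.2 s) = rf (f s) := by rw [rev_eq h, rf_rf]
      have h4 : ‖f s‖ < ρ / 2 := (f.norm_coe_le_norm s).trans_lt hf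
      have h5 := (Complex.abs_re_le_norm (f s)).trans_lt h4
      have h6 := (Complex.abs_im_le_norm (f s)).trans_lt h4
      rw [abs_lt] at h5 h6
      have h7 : 0 < (f s).im := h2
      rw [h3]
      refine ⟨?_, ?_⟩
      · change rf (rf (f s)) ∈ S
        rw [rf_rf]
        exact h1
      · change -ρ < (rf (f s)).re ∧ (rf (f s)).re < ρ ∧ 0 < (rf (f s)).im ∧ (rf (f s)).im < ρ
        simp only [rf]
        refine ⟨by linarith, by linarith, h7, by linarith⟩
    have hsub : tau p.2 '' {s : unitInterval | f s ∈ S ∩ Hp} ⊆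
        {s : unitInterval | p.1 s ∈ rf ⁻¹' S ∩ (Sq ρ hρ).D} := by
      rintro _ ⟨s, hs, rfl⟩
      exact hD s hs
    have hsub2 : Set.range f ∩ (S ∩ Hp) ⊆
        rf '' (Set.range p.1 ∩ (rf ⁻¹' S ∩ (Sq ρ hρ).D)) := by
      rintro _ ⟨⟨s, rfl⟩, hs⟩
      exact ⟨p.1 (tau p.2 s), ⟨⟨_, rfl⟩, hD s hs⟩, (rev_eq h s).symm⟩
    obtain ⟨⟨s1, s2⟩, s3, s4⟩ := hS
    refine ⟨⟨?_, ?_⟩, ?_, ?_⟩
    · rw [← tau_dimH hL]
      exact (dimH_mono hsub).trans s1
    · exact (packDim_tau hL _).trans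
        ((Pool.Agent.N892.MA.packDim_mono hsub).trans s2)
    · refine (dimH_mono hsub2).trans ?_
      rw [rf_dimH]
      exact s3
    · exact (Pool.Agent.N892.MA.packDim_mono hsub2).trans ((packDim_rf _).trans s4)
  · intro f p a h hR ε hε
    classical
    obtain ⟨K, hK⟩ := hR ε hε
    refine ⟨K, fun x r w hr hr1 hrw => ?_⟩
    obtain ⟨T, hT1, hT2⟩ := hK (rf x) r w hr hr1 hrw
    refine ⟨T.image rf, ?_, ?_⟩
    · refine le_trans ?_ hT1
      exact_mod_cast Finset.card_image_le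
    · rintro _ ⟨⟨s, rfl⟩, hs⟩
      have h1 : p.1 (tau p.2 s) ∈ Set.range p.1 ∩ closedBall (rf x) w := by
        refine ⟨⟨_, rfl⟩, ?_⟩
        rw [mem_closedBall] at hs ⊢
        rw [rev_eq h] at hs
        rw [← dist_rf, rf_rf]
        exact hs
      obtain ⟨c, hc, hcd⟩ := Set.mem_iUnion₂.1 (hT2 h1)
      refine Set.mem_iUnion₂.2 ⟨rf c, Finset.mem_image_of_mem _ hc, ?_⟩
      rw [mem_closedBall] at hcd ⊢
      rw [rev_eq h, dist_rf]
      exact hcd
  · intro S α γ β
    have key : ∀ z, rf (aff α γ β z) =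
        aff (-(starRingEnd ℂ) γ) (-(starRingEnd ℂ) α) (-(starRingEnd ℂ) β) z := by
      intro z
      rw [rf_eq]
      unfold aff
      rw [map_add, map_add, map_mul, map_mul, Complex.conj_conj]
      ring
    ext w
    constructor
    · rintro ⟨z, hz, hzw⟩
      refine ⟨z, hz, ?_⟩
      rw [← key, hzw, rf_rf]
    · rintro ⟨z, hz, rfl⟩
      refine ⟨z, hz, ?_⟩
      rw [← key, rf_rf]

end Pool.Agent.L0h60.HT
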