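import Pool.Agent.L0h89.HT.Pred

set_option autoImplicit false

/-! Common facts for the transfer. -/

namespace Pool.Agent.L0h60.HT

open MeasureTheory Filter Topology
open scoped ENNReal NNReal
open Pool.Agent.L0h89.HT H984N

theorem rf_eq (z : ℂ) : rf z = -(starRingEnd ℂ) z := by
  apply Complex.ext <;> simp [rf]

theorem rf_rf (z : ℂ) : rf (rf z) = z := by
  apply Complex.ext <;> simp [rf]

theorem rf_iso : Isometry rf := by
  apply Isometry.of_dist_eq
  intro a b
  rw [rf_eq, rf_eq, dist_neg_neg, Complex.dist_conj_conj]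

theorem dist_rf (a b : ℂ) : dist (rf a) (rf b) = dist a b := rf_iso.dist_eq a b

theorem tau_coe {L : ℝ} (hL : 1 ≤ L) (s : unitInterval) : (tau L s : ℝ) = 1 - s / L := by
  have h0 : (0 : ℝ) < L := by linarith
  have h1 : (s : ℝ) / L ≤ 1 := by
    rw [div_le_one h0]
    exact s.2.2.trans hL
  have h2 : 0 ≤ (s : ℝ) / L := div_nonneg s.2.1 h0.le
  unfold tau
  rw [Set.projIcc_of_mem zero_le_one ⟨by linarith, by linarith⟩]

theorem tau_sub {L : ℝ} (hL : 1 ≤ L) (s t : unitInterval) :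
    L * |(tau L s : ℝ) - tau L t| = |(s : ℝ) - t| := by
  have h0 : (0 : ℝ) < L := by linarith
  rw [tau_coe hL, tau_coe hL]
  have : (1 - (s : ℝ) / L) - (1 - t / L) = ((t : ℝ) - s) / L := by ring
  rw [this, abs_div, abs_of_pos h0, abs_sub_comm (t : ℝ)]
  field_simp

theorem tau_lip {L : ℝ} (hL : 1 ≤ L) : LipschitzWith 1 (tau L) := by
  apply LipschitzWith.of_dist_le_mul
  intro s t
  rw [Subtype.dist_eq, Subtype.dist_eq, Real.dist_eq, Real.dist_eq, ← tau_sub hL s t, NNReal.coe_one,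
    one_mul]
  nlinarith [abs_nonneg ((tau L s : ℝ) - tau L t)]

theorem tau_anti {L : ℝ} (hL : 1 ≤ L) : AntilipschitzWith (Real.toNNReal L) (tau L) := by
  apply AntilipschitzWith.of_le_mul_dist
  intro s t
  rw [Subtype.dist_eq, Subtype.dist_eq, Real.dist_eq, Real.dist_eq, ← tau_sub hL s t,
    Real.coe_toNNReal _ (by linarith)]

theorem tau_dimH {L : ℝ} (hL : 1 ≤ L) (S : Set unitInterval) : dimH (tau L '' S) = dimH S :=
  le_antisymm ((tau_lip hL).dimH_image_le S) ((tau_anti hL).le_dimH_image S)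

theorem tau_lt {L : ℝ} (hL : 1 ≤ L) {s t : unitInterval} (h : s < t) : tau L t < tau L s := by
  have h0 : (0 : ℝ) < L := by linarith
  have : (tau L t : ℝ) < tau L s := by
    rw [tau_coe hL, tau_coe hL]
    have : (s : ℝ) / L < t / L := div_lt_div_of_pos_right h h0
    linarith
  exact this

theorem tau_le {L : ℝ} (hL : 1 ≤ L) {s t : unitInterval} (h : s ≤ t) : tau L t ≤ tau L s := by
  rcases h.eq_or_lt with h | h
  · rw [h]
  · exact (tau_lt hL h).le

/-- points of the range -/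
theorem tau_surj {L : ℝ} (hL : 1 ≤ L) {t v : unitInterval} (h : tau L t ≤ v) :
    ∃ w : unitInterval, w ≤ t ∧ tau L w = v := by
  have h0 : (0 : ℝ) < L := by linarith
  have h1 : (1 : ℝ) - t / L ≤ v := by
    rw [← tau_coe hL]; exact h
  have h2 : L * (1 - v) ≤ t := by
    have : (1 : ℝ) - v ≤ t / L := by linarith
    rw [le_div_iff₀ h0] at this
    linarith
  have h3 : 0 ≤ L * (1 - (v : ℝ)) := mul_nonneg h0.le (by linarith [v.2.2])
  refine ⟨⟨L * (1 - v), h3, h2.trans t.2.2⟩, h2, ?_⟩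
  apply Subtype.ext
  rw [tau_coe hL]
  change 1 - L * (1 - (v : ℝ)) / L = v
  field_simp
  ring

theorem tau_Icc {L : ℝ} (hL : 1 ≤ L) {s t : unitInterval} :
    tau L '' Set.Icc s t = Set.Icc (tau L t) (tau L s) := by
  ext v
  constructor
  · rintro ⟨u, ⟨hu1, hu2⟩, rfl⟩
    exact ⟨tau_le hL hu2, tau_le hL hu1⟩
  · rintro ⟨h1, h2⟩
    obtain ⟨w, hw, rfl⟩ := tau_surj hL h1
    refine ⟨w, ⟨?_, hw⟩, rfl⟩
    by_contra hcon
    exact absurd (tau_lt hL (not_le.1 hcon)) (not_lt.2 h2)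

theorem rev_pos {f : C(unitInterval, ℂ)} {p : X} (h : Rev 1 f p) : 1 ≤ p.2 := by
  have := h.2.1
  rwa [Real.one_rpow, one_mul] at this

theorem rev_eq {f : C(unitInterval, ℂ)} {p : X} (h : Rev 1 f p) (s : unitInterval) :
    f s = rf (p.1 (tau p.2 s)) := by
  have h1 := h.2.2 s (tau p.2 s)
  rw [Real.one_rpow, one_mul] at h1
  have := h1 (tau_coe (rev_pos h) s)
  rwa [Complex.ofReal_one, one_mul] at this

theorem rev_dist {f : C(unitInterval, ℂ)} {p : X} (h : Rev 1 f p) (s t : unitInterval) :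
    dist (f s) (f t) = dist (p.1 (tau p.2 s)) (p.1 (tau p.2 t)) := by
  rw [rev_eq h, rev_eq h, dist_rf]

theorem rf_dimH (S : Set ℂ) : dimH (rf '' S) = dimH S := rf_iso.dimH_image S

theorem rev_image {f : C(unitInterval, ℂ)} {p : X} (h : Rev 1 f p) (S : Set unitInterval) :
    f '' S = rf '' (p.1 '' (tau p.2 '' S)) := by
  rw [Set.image_image, Set.image_image]
  refine Set.image_congr fun s _ => ?_
  exact rev_eq h s

theorem rev_image_dimH {f : C(unitInterval, ℂ)} {p : X} (h : Rev 1 f p) (S : Set unitInterval) :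
    dimH (f '' S) = dimH (p.1 '' (tau p.2 '' S)) := by
  rw [rev_image h, rf_dimH]

end Pool.Agent.L0h60.HT
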