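import Pool.Agent.L0h60.HT.Base

set_option autoImplicit false

/-! ZENP: energies. -/

namespace Pool.Agent.L0h60.HT

open MeasureTheory Filter Topology
open scoped ENNReal NNReal
open Pool.Agent.L0h89.HT H984N

theorem rf_emb : MeasurableEmbedding rf := by
  have h1 : Continuous rf := rf_iso.continuous
  exact
    { injective := rf_iso.injective
      measurable := h1.measurable
      measurableSet_image' := by
        intro s hs
        have : rf '' s = rf ⁻¹' s := by
          ext z
          constructor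
          · rintro ⟨w, hw, rfl⟩
            rw [Set.mem_preimage, rf_rf]
            exact hw
          · intro hz
            exact ⟨rf z, hz, rf_rf z⟩
        rw [this]
        exact h1.measurable hs }

theorem posCap_rf (k : ℝ → ENNReal) (S : Set ℂ) : PosCap k S → PosCap k (rf '' S) := by
  rintro ⟨ν, hν, h0, he⟩
  refine ⟨ν.map rf, ?_, ?_, ?_⟩
  · exact Measure.isProbabilityMeasure_map rf_emb.measurable.aemeasurable
  · rw [rf_emb.map_apply]
    have : rf ⁻¹' (rf '' S)ᶜ = Sᶜ := by
      rw [Set.preimage_compl, Set.preimage_image_eq _ rf_iso.injective]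
    rw [this]
    exact h0
  · unfold Pool.Agent.L0h89.HT.energy at he ⊢
    rw [rf_emb.lintegral_map]
    have : ∀ x, ∫⁻ y, k (dist (rf x) y) ∂(ν.map rf) = ∫⁻ y, k (dist x y) ∂ν := by
      intro x
      rw [rf_emb.lintegral_map]
      simp_rw [dist_rf]
    simp_rw [this]
    exact he

theorem posCap_rf_iff (k : ℝ → ENNReal) (S : Set ℂ) : PosCap k (rf '' S) ↔ PosCap k S := by
  refine ⟨fun h => ?_, posCap_rf k S⟩
  have := posCap_rf k _ h
  have e : rf '' (rf '' S) = S := by
    rw [Set.image_image]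
    simp_rw [rf_rf]
    exact Set.image_id' S
  rwa [e] at this

section

variable (hT : S_TAU)
include hT

theorem near_eq {f : C(unitInterval, ℂ)} {p : X} (h : Rev 1 f p) (s t : unitInterval) (r : ℝ)
    (u : unitInterval) :
    near (f, 1) s t r u = near p (tau p.2 t) (tau p.2 s) r (tau p.2 u) := by
  have hL := rev_pos h
  obtain ⟨-, -, -, -, hvol, -⟩ := hT p.2 hL
  have h0 : (0 : ℝ) < p.2 := by linarith
  unfold near
  have e : {v : unitInterval | (tau p.2 t ≤ v ∧ v ≤ tau p.2 s) ∧
      dist (p.1 (tau p.2 u)) (p.1 v) ≤ r} =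
      tau p.2 '' {v : unitInterval | (s ≤ v ∧ v ≤ t) ∧ dist (f u) (f v) ≤ r} := by
    ext v
    constructor
    · rintro ⟨⟨h1, h2⟩, h3⟩
      have h4 : v ∈ Set.Icc (tau p.2 t) (tau p.2 s) := ⟨h1, h2⟩
      rw [← tau_Icc hL] at h4
      obtain ⟨w, hw, rfl⟩ := h4
      refine ⟨w, ⟨hw, ?_⟩, rfl⟩
      rw [rev_dist h]
      exact h3
    · rintro ⟨w, ⟨hw, hd⟩, rfl⟩
      refine ⟨⟨tau_le hL hw.2, tau_le hL hw.1⟩, ?_⟩
      rw [← rev_dist h]
      exact hd
  rw [e, hvol, ENNReal.toReal_mul, ENNReal.toReal_ofReal (by positivity), ← mul_assoc,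
    mul_one_div_cancel h0.ne']

theorem int_tau {L : ℝ} (hL : 1 ≤ L) (s t : unitInterval) (F : unitInterval → ℝ) :
    ∫ u in Set.Icc s t, F (tau L u) = L * ∫ u in Set.Icc (tau L t) (tau L s), F u := by
  obtain ⟨-, hemb, -, hmap, -, -⟩ := hT L hL
  have h0 : (0 : ℝ) ≤ L := by linarith
  have e1 : Set.Icc s t = tau L ⁻¹' (Set.Icc (tau L t) (tau L s)) := by
    rw [← tau_Icc hL, Set.preimage_image_eq _ hemb.injective]
  rw [e1, ← hemb.setIntegral_map, hmap, Measure.restrict_smul, integral_smul_measure,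
    ENNReal.toReal_ofReal h0, smul_eq_mul, Measure.restrict_restrict measurableSet_Icc]
  congr 3
  apply Set.inter_eq_left.2
  intro v hv
  refine ⟨?_, v.2.2⟩
  exact (tau_le hL (show t ≤ 1 from t.2.2)).trans hv.1

theorem t_Enp : T_Enp := by
  intro c C f p hc hC h hp
  have hL := rev_pos h
  have h0 : (0 : ℝ) < p.2 := by linarith
  obtain ⟨-, hemb, -, -, hvol, -⟩ := hT p.2 hL
  refine ⟨?_, ?_⟩
  · filter_upwards [hp.1] with r hr s t hst hle
    have e1 : p.2 * ((tau p.2 s : ℝ) - tau p.2 t) = (t : ℝ) - s := by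
      rw [tau_coe hL, tau_coe hL]
      field_simp
      ring
    have h1 := hr (tau p.2 t) (tau p.2 s) (tau_le hL hst) (by
      rw [e1]
      simpa using hle)
    simp_rw [near_eq hT h s t r]
    rw [int_tau hT hL s t (fun u => near p (tau p.2 t) (tau p.2 s) r u),
      int_tau hT hL s t (fun u => near p (tau p.2 t) (tau p.2 s) r u ^ 7)]
    constructor
    · have h2 := mul_le_mul_of_nonneg_left h1.1 h0.le
      have e2 : p.2 * (c * r ^ (7/4 : ℝ) * ((tau p.2 s : ℝ) - tau p.2 t)) =
          c * r ^ (7/4 : ℝ) * ((t : ℝ) - s) := by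
        rw [← e1]; ring
      rw [e2] at h2
      exact h2
    · have h2 := mul_le_mul_of_nonneg_left h1.2 h0.le
      have e2 : p.2 * ((C * r ^ (7/4 : ℝ)) ^ 7 * ((tau p.2 s : ℝ) - tau p.2 t)) =
          (C * r ^ (7/4 : ℝ)) ^ 7 * ((t : ℝ) - s) := by
        rw [← e1]; ring
      rw [e2] at h2
      exact h2
  · intro k hk E hE hE0
    have h1 := hp.2 k hk (tau p.2 '' E) (hemb.measurableSet_image.2 hE) (by
      rw [hvol]
      intro h2
      rcases mul_eq_zero.1 h2 with h3 | h3
      · rw [ENNReal.ofReal_eq_zero] at h3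
        exact absurd h3 (not_le.2 (by positivity))
      · exact hE0 h3)
    rw [← h1]
    change PosCap k (f '' E) ↔ _
    rw [rev_image h, posCap_rf_iff]

end

end Pool.Agent.L0h60.HT
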