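import Pool.Agent.L0h60.HT.Base

set_option autoImplicit false

/-! ZFAST: fast and slow times. -/

namespace Pool.Agent.L0h60.HT

open MeasureTheory Filter Topology
open scoped ENNReal NNReal
open Pool.Agent.L0h89.HT H984N

theorem dimH_le_of {X' : Type} [EMetricSpace X'] {S T : Set X'} {x : X'} (h : S ⊆ T ∪ {x}) :
    dimH S ≤ dimH T := by
  refine (dimH_mono h).trans ?_
  rw [dimH_union, dimH_singleton]
  simp

/-- Transfer of exceptional sets of times. -/
theorem transfer {f : C(unitInterval, ℂ)} {p : X} (h : Rev 1 f p) (Qf Qp : unitInterval → Prop)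
    (hQ : ∀ s : unitInterval, s < 1 → (Qf s ↔ Qp (tau p.2 s))) (s t : unitInterval) :
    dimH {u | u ∈ Set.Icc s t ∧ Qf u} = dimH {u | u ∈ Set.Icc (tau p.2 t) (tau p.2 s) ∧ Qp u} ∧
    dimH (f '' {u | u ∈ Set.Icc s t ∧ Qf u}) =
      dimH (p.1 '' {u | u ∈ Set.Icc (tau p.2 t) (tau p.2 s) ∧ Qp u}) := by
  have hL := rev_pos h
  set A := {u | u ∈ Set.Icc s t ∧ Qf u} with hA
  set B := {u | u ∈ Set.Icc (tau p.2 t) (tau p.2 s) ∧ Qp u} with hB
  have h1 : tau p.2 '' A ⊆ B ∪ {tau p.2 1} := by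
    rintro _ ⟨u, ⟨hu, hQu⟩, rfl⟩
    rcases eq_or_lt_of_le (show u ≤ 1 from u.2.2) with h1 | h1
    · right; rw [h1]; rfl
    · left
      exact ⟨⟨tau_le hL hu.2, tau_le hL hu.1⟩, (hQ u h1).1 hQu⟩
  have h2 : B ⊆ tau p.2 '' A ∪ {tau p.2 1} := by
    rintro v ⟨hv, hQv⟩
    rw [← tau_Icc hL] at hv
    obtain ⟨u, hu, rfl⟩ := hv
    rcases eq_or_lt_of_le (show u ≤ 1 from u.2.2) with h1 | h1
    · right; rw [h1]; rfl
    · left
      exact ⟨u, ⟨hu, (hQ u h1).2 hQv⟩, rfl⟩
  constructor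
  · rw [← tau_dimH hL A]
    exact le_antisymm (dimH_le_of h1) (dimH_le_of h2)
  · rw [rev_image_dimH h]
    have h3 : p.1 '' (tau p.2 '' A) ⊆ p.1 '' B ∪ {p.1 (tau p.2 1)} := by
      refine (Set.image_mono h1).trans ?_
      rw [Set.image_union, Set.image_singleton]
    have h4 : p.1 '' B ⊆ p.1 '' (tau p.2 '' A) ∪ {p.1 (tau p.2 1)} := by
      refine (Set.image_mono h2).trans ?_
      rw [Set.image_union, Set.image_singleton]
    exact le_antisymm (dimH_le_of h3) (dimH_le_of h4)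

/-- For small `h` the times near an interior time are in the range of the time change. -/
theorem ev_small {s : unitInterval} (hs : s < 1) : ∀ᶠ h : ℝ in 𝓝[>] 0, h < 1 - (s : ℝ) := by
  have : (0 : ℝ) < 1 - s := by
    have : (s : ℝ) < 1 := hs
    linarith
  exact (eventually_lt_nhds this).filter_mono nhdsWithin_le_nhds

theorem near_surj {L : ℝ} (hL : 1 ≤ L) {s v : unitInterval} {h : ℝ} (hh : h < 1 - (s : ℝ))
    (hv : L * |(v : ℝ) - tau L s| ≤ h) : ∃ w : unitInterval, tau L w = v := by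
  have h0 : (0 : ℝ) < L := by linarith
  have h1 : tau L 1 ≤ v := by
    have h2 : -(L * ((v : ℝ) - tau L s)) ≤ L * |(v : ℝ) - tau L s| := by
      rw [← mul_neg]
      exact mul_le_mul_of_nonneg_left (neg_le_abs _) h0.le
    have h3 : (tau L 1 : ℝ) ≤ v := by
      have h7 := h2.trans hv
      rw [tau_coe hL] at h7 ⊢
      change (1 : ℝ) - ((1 : ℝ)) / L ≤ v
      have h4 : L * (1 - (s : ℝ) / L) = L - s := by field_simp
      have h5 : L * (1 - (1 : ℝ) / L) = L - 1 := by field_simp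
      have h6 : L * (1 - (1 : ℝ) / L) ≤ L * v := by
        rw [h5]
        rw [mul_sub, h4] at h7
        linarith
      exact le_of_mul_le_mul_left h6 h0
    exact h3
  obtain ⟨w, _, hw⟩ := tau_surj hL h1
  exact ⟨w, hw⟩

theorem t_Fst : T_Fst := by
  intro F θ₀ f p h hF θ hθ hθ₀ s t hst
  have hL := rev_pos h
  have hQ : ∀ u : unitInterval, u < 1 → (Fast θ (f, 1) u ↔ Fast θ p (tau p.2 u)) := by
    intro u hu
    unfold Fast
    refine Filter.frequently_congr ?_
    filter_upwards [ev_small hu] with x hx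
    constructor
    · rintro ⟨v, hv1, hv2⟩
      refine ⟨tau p.2 v, ?_, ?_⟩
      · rw [tau_sub hL]
        simpa using hv1
      · rw [← rev_dist h]
        exact hv2
    · rintro ⟨v, hv1, hv2⟩
      obtain ⟨w, rfl⟩ := near_surj hL hx hv1
      refine ⟨w, ?_, ?_⟩
      · rw [tau_sub hL] at hv1
        simpa using hv1
      · rw [rev_dist h]
        exact hv2
  obtain ⟨e1, e2⟩ := transfer h _ _ hQ s t
  have := hF θ hθ hθ₀ (tau p.2 t) (tau p.2 s) (tau_lt hL hst)
  rw [← e1, ← e2] at this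
  exact this

theorem t_Slw : T_Slw := by
  intro F θ₀ f p h hF θ hθ s t hst
  have hL := rev_pos h
  have hQ : ∀ u : unitInterval, u < 1 → (Slow θ (f, 1) u ↔ Slow θ p (tau p.2 u)) := by
    intro u hu
    unfold Slow
    refine Filter.frequently_congr ?_
    filter_upwards [ev_small hu] with x hx
    constructor
    · intro hv v hv1
      obtain ⟨w, rfl⟩ := near_surj hL hx hv1
      rw [tau_sub hL] at hv1
      rw [← rev_dist h]
      exact hv w (by simpa using hv1)
    · intro hv v hv1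
      rw [rev_dist h]
      apply hv
      rw [tau_sub hL]
      simpa using hv1
  obtain ⟨e1, e2⟩ := transfer h _ _ hQ s t
  have := hF θ hθ (tau p.2 t) (tau p.2 s) (tau_lt hL hst)
  rw [← e1, ← e2] at this
  exact this

end Pool.Agent.L0h60.HT
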