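import Pool.Agent.L0h60.HT.Base

set_option autoImplicit false

/-! ZPRJ: projections and distances. -/

namespace Pool.Agent.L0h60.HT

open MeasureTheory Filter Topology
open scoped ENNReal NNReal
open Pool.Agent.L0h89.HT H984N

theorem obs_rf {g : ℂ → ℝ} (hg : g ∈ Obs) : (fun z => g (rf z)) ∈ Obs := by
  rcases hg with ⟨u, hu, rfl⟩ | ⟨z0, rfl⟩
  · left
    refine ⟨rf u, ?_, ?_⟩
    · rw [rf_eq, norm_neg, Complex.norm_conj, hu]
    · funext z
      simp [co, rf]
  · right
    refine ⟨rf z0, ?_⟩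
    funext z
    rw [← dist_rf z (rf z0), rf_rf]

/-- The map of the graphs. -/
noncomputable def grm (L : ℝ) (x : unitInterval × ℝ) : unitInterval × ℝ := (tau L x.1, x.2)

theorem grm_lip {L : ℝ} (hL : 1 ≤ L) : LipschitzWith 1 (grm L) := by
  apply LipschitzWith.of_dist_le_mul
  intro x y
  rw [NNReal.coe_one, one_mul, Prod.dist_eq, Prod.dist_eq]
  apply max_le_max _ le_rfl
  have := (tau_lip hL).dist_le_mul x.1 y.1
  rw [NNReal.coe_one, one_mul] at this
  exact this

theorem grm_anti {L : ℝ} (hL : 1 ≤ L) : AntilipschitzWith (Real.toNNReal L) (grm L) := by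
  apply AntilipschitzWith.of_le_mul_dist
  intro x y
  have h0 : (0 : ℝ) ≤ L := by linarith
  rw [Real.coe_toNNReal _ h0, Prod.dist_eq, Prod.dist_eq, mul_max_of_nonneg _ _ h0]
  apply max_le_max
  · have := (tau_anti hL).le_mul_dist x.1 y.1
    rw [Real.coe_toNNReal _ h0] at this
    exact this
  · change dist x.2 y.2 ≤ L * dist x.2 y.2
    nlinarith [dist_nonneg (x := x.2) (y := y.2)]

theorem grm_dimH {L : ℝ} (hL : 1 ≤ L) (S : Set (unitInterval × ℝ)) :
    dimH (grm L '' S) = dimH S :=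
  le_antisymm ((grm_lip hL).dimH_image_le S) ((grm_anti hL).le_dimH_image S)

theorem t_Prj : T_Prj := by
  intro f p h hp g hg
  have hL := rev_pos h
  set k : ℂ → ℝ := fun z => g (rf z) with hk
  have hgf : ∀ s, g (f s) = k (p.1 (tau p.2 s)) := fun s => by rw [rev_eq h]
  obtain ⟨c1, c2, c3⟩ := hp k (obs_rf hg)
  have eimg : ∀ E : Set unitInterval, (fun s => g (f s)) '' E =
      (fun s => k (p.1 s)) '' (tau p.2 '' E) := by
    intro E
    rw [Set.image_image]
    exact Set.image_congr fun s _ => hgf s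
  have egr : ∀ E : Set unitInterval, dimH ((fun s => (s, g (f s))) '' E) =
      dimH ((fun s => (s, k (p.1 s))) '' (tau p.2 '' E)) := by
    intro E
    rw [← grm_dimH hL]
    congr 1
    rw [Set.image_image, Set.image_image]
    refine Set.image_congr fun s _ => ?_
    rw [hgf s]
    rfl
  refine ⟨fun E => ?_, fun s t hst => ?_, fun x => ⟨?_, ?_⟩⟩
  · have := c1 (tau p.2 '' E)
    unfold Bounds at this ⊢
    rw [tau_dimH hL, ← eimg, ← egr] at this
    exact this
  · rw [egr, tau_Icc hL]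
    exact c2 _ _ (tau_lt hL hst)
  · rw [← tau_dimH hL]
    refine (dimH_mono ?_).trans (c3 x).1
    rintro _ ⟨s, hs, rfl⟩
    change k (p.1 (tau p.2 s)) = x
    rw [← hgf]
    exact hs
  · rw [← rf_dimH]
    refine (dimH_mono ?_).trans (c3 x).2
    rintro _ ⟨z, ⟨⟨s, rfl⟩, hz⟩, rfl⟩
    refine ⟨⟨tau p.2 s, ?_⟩, ?_⟩
    · rw [rev_eq h, rf_rf]
    · change g (rf (rf (f s))) = x
      rw [rf_rf]
      exact hz

end Pool.Agent.L0h60.HT
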